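import Mathlib
import Pool.Agent.N290.RN.Stm

/-!
# RN/GU: the global theorem for a fixed boundary point `p`
-/

set_option autoImplicit false

open Complex MeasureTheory Set Filter Topology
open scoped ENNReal

namespace Pool.Agent.N700.RN

open Pool.Agent.N290.RJ Pool.Agent.N290.RK Pool.Agent.N290.RL Pool.Agent.N290.RM
  Pool.Agent.N290.RN

variable {d : ℕ}

/-- the data -/
structure Dat (p : E d) (M P L : ℕ) (ε A : ℝ) (τ : ℝ → ℝ) where
  f : Fin M → E d → ℂ
  u : Fin P → ℂ → ℂ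
  G : Fin L → E d → ℂ
  κ : Fin L → E d → ℂ
  a : E d → ℝ
  f1 : ∀ j, DifferentiableOn ℂ (f j) (B d)
  f2 : ∀ j, ∀ z ∈ B d, ‖f j z‖ ≤ 1
  u1 : ∀ i, DifferentiableOn ℂ (u i) (Metric.ball 0 1)
  u2 : ∀ i, ∀ w ∈ Metric.ball (0 : ℂ) 1, ‖u i w‖ ≤ 1
  g1 : ∀ l, DifferentiableOn ℂ (G l) (B d)
  g2 : ∀ l, ∀ z ∈ B d, ‖G l z‖ ≤ 1
  k1 : ∀ l, DifferentiableOn ℂ (κ l)
    {z | z ∈ B d ∧ (∀ j, ‖f j z‖ < ε) ∧ ∀ i, ‖u i (ip z p)‖ < ε}
  k2 : ∀ z ∈ B d, (∀ j, ‖f j z‖ < ε) → (∀ i, ‖u i (ip z p)‖ < ε) →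
    (∀ l, ‖κ l z‖ ≤ A) ∧ ∑ l, G l z * κ l z = 1
  aw : AW a
  tl : Tail τ a
  df : ∀ j, ∀ z ∈ B d, ∀ ξ, ‖fderiv ℂ (f j) z ξ‖ ≤ a z * len z ξ

theorem ip_sq_le {p : E d} (hp : N p = 1) (z : E d) : ‖ip z p‖ ^ 2 ≤ N z := by
  have h1 := N_nonneg (z + (-ip z p) • p)
  rw [N_add, N_smulc, hp, ← ip_conj ((-ip z p) • p) z, ip_smul_left, ← ip_conj z p,
    neg_mul, mulconj, norm_neg, mul_one] at h1
  simp only [map_neg, Complex.conj_ofReal, Complex.neg_re, Complex.ofReal_re] at h1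
  linarith

theorem ip_mem {p : E d} (hp : N p = 1) {z : E d} (hz : z ∈ B d) :
    ip z p ∈ Metric.ball (0 : ℂ) 1 := by
  rw [mem_ball_zero_iff]
  have h1 := ip_sq_le hp z
  have h2 : N z < 1 := hz
  have h3 := norm_nonneg (ip z p)
  nlinarith

theorem ip_near {p q : E d} (hp : N p = 1) (hq : ip q p = 0) (z : E d) :
    ‖ip z p‖ ≤ nm (z - q) := by
  have h1 : ip z p = ip (z - q) p := by
    have h2 : z = (z - q) + q := (sub_add_cancel z q).symm
    have h3 : ip z p = ip (z - q) p + ip q p := by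
      rw [← ip_add_left, sub_add_cancel]
    rw [h3, hq, add_zero]
  rw [h1]
  have h4 := ip_sq_le hp (z - q)
  rw [← nm_sq] at h4
  exact le_of_sq_le_sq h4 (nm_nonneg _)

theorem ip_diff (p : E d) : Differentiable ℂ fun z : E d => ip z p := by
  unfold ip
  fun_prop

/-- Schwarz -/
theorem schw {v : ℂ → ℂ} (h1 : DifferentiableOn ℂ v (Metric.ball 0 1))
    (h2 : ∀ w ∈ Metric.ball (0 : ℂ) 1, ‖v w‖ ≤ 1) {w : ℂ} (hw : w ∈ Metric.ball (0 : ℂ) 1) :
    ‖v w - v 0‖ ≤ 3 * ‖w‖ := by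
  have h0 : (0 : ℂ) ∈ Metric.ball (0 : ℂ) 1 := Metric.mem_ball_self one_pos
  have h3 : MapsTo v (Metric.ball 0 1) (Metric.closedBall (v 0) 3) := by
    intro x hx
    rw [Metric.mem_closedBall, dist_eq_norm]
    have := norm_sub_le (v x) (v 0)
    have := h2 x hx
    have := h2 0 h0
    linarith
  have h4 := Complex.dist_le_div_mul_dist_of_mapsTo_ball h1 h3 hw
  rw [dist_eq_norm, dist_zero_right] at h4
  linarith

theorem mob_mem {b w : ℂ} (hb : ‖b‖ < 1) (hw : w ∈ Metric.ball (0 : ℂ) 1) :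
    1 + starRingEnd ℂ b * w ≠ 0 ∧ (w + b) / (1 + starRingEnd ℂ b * w) ∈ Metric.ball (0 : ℂ) 1 := by
  rw [mem_ball_zero_iff] at hw
  have h1 : 1 + starRingEnd ℂ b * w ≠ 0 := by
    intro h
    have h2 : ‖starRingEnd ℂ b * w‖ = 1 := by
      have : starRingEnd ℂ b * w = -1 := by linear_combination h
      rw [this, norm_neg, norm_one]
    rw [norm_mul, RCLike.norm_conj] at h2
    have := norm_nonneg b
    have := norm_nonneg w
    nlinarith
  refine ⟨h1, ?_⟩
  rw [mem_ball_zero_iff, norm_div, div_lt_one (norm_pos_iff.2 h1)]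
  refine lt_of_pow_lt_pow_left₀ 2 (norm_nonneg _) ?_
  have h3 : ‖1 + starRingEnd ℂ b * w‖ ^ 2 - ‖w + b‖ ^ 2 = (1 - ‖b‖ ^ 2) * (1 - ‖w‖ ^ 2) := by
    rw [← Complex.normSq_eq_norm_sq, ← Complex.normSq_eq_norm_sq, ← Complex.normSq_eq_norm_sq,
      ← Complex.normSq_eq_norm_sq]
    simp only [Complex.normSq_apply, Complex.add_re, Complex.add_im, Complex.one_re,
      Complex.one_im, Complex.mul_re, Complex.mul_im, Complex.conj_re, Complex.conj_im]
    ring
  have h4 : 0 < (1 - ‖b‖ ^ 2) * (1 - ‖w‖ ^ 2) := by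
    have := norm_nonneg b
    have := norm_nonneg w
    exact mul_pos (by nlinarith) (by nlinarith)
  linarith

theorem ap3 {α : Type*} {M P L : ℕ} {f : Fin M → α} {u : Fin P → α} {G : Fin L → α} {Q : α → Prop}
    (h1 : ∀ j, Q (f j)) (h2 : ∀ i, Q (u i)) (h3 : ∀ l, Q (G l)) :
    ∀ j, Q (Fin.append (Fin.append f u) G j) := by
  intro j
  refine Fin.addCases (fun i => ?_) (fun i => ?_) j
  · rw [Fin.append_left]
    refine Fin.addCases (fun i => ?_) (fun i => ?_) i
    · rw [Fin.append_left]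
      exact h1 i
    · rw [Fin.append_right]
      exact h2 i
  · rw [Fin.append_right]
    exact h3 i

/-- all functions of the datum -/
noncomputable def Dat.F {p : E d} {M P L : ℕ} {ε A : ℝ} {τ : ℝ → ℝ} (x : Dat p M P L ε A τ) :
    Fin (M + P + L) → E d → ℂ :=
  Fin.append (Fin.append x.f (fun i z => x.u i (ip z p))) x.G

theorem localS (hM : MVF d) (hT : TRP d) (hQ : LQ d) {p : E d} (hp : N p = 1) (M P L : ℕ)
    {ε : ℝ} (A : ℝ) {τ : ℝ → ℝ} (hε : 0 < ε) (hτ : Van τ) {q : E d} (hq : N q = 1)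
    (hqp : ip q p = 0) :
    ∃ C ρ : ℝ, 0 < ρ ∧ ∀ (x : Dat p M P L ε A τ) (b : ℂ), ‖b‖ < 1 →
      ∃ g : Fin (M + P + L) → E d → ℂ,
        (∀ j, DifferentiableOn ℂ (g j) {z | z ∈ B d ∧ nm (z - q) < ρ}) ∧
        ∀ z ∈ B d, nm (z - q) < ρ → (∀ j, ‖g j z‖ ≤ C) ∧
          ∑ j, x.F j (mvE p b z) * g j z = 1 := by
  classical
  obtain ⟨CT, hCT, hT⟩ := hT
  have hR0 : 0 < min (1 / 2) (ε / 16) := lt_min (by norm_num) (by positivity)
  have hvan : Van fun κ => CT * (|τ (16 * κ)| + κ) := by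
    have h1 : Tendsto (fun κ : ℝ => 16 * κ) (𝓝[>] 0) (𝓝[>] 0) := by
      refine tendsto_nhdsWithin_iff.2 ⟨?_, ?_⟩
      · have : Tendsto (fun κ : ℝ => 16 * κ) (𝓝 0) (𝓝 (16 * 0)) := by
          exact (continuous_const.mul continuous_id).tendsto 0
        rw [mul_zero] at this
        exact this.mono_left nhdsWithin_le_nhds
      · filter_upwards [self_mem_nhdsWithin] with κ hκ
        exact mul_pos (by norm_num : (0 : ℝ) < 16) hκ
    have h2 : Tendsto (fun κ : ℝ => |τ (16 * κ)|) (𝓝[>] 0) (𝓝 0) := by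
      have := (hτ.comp h1).abs
      rwa [abs_zero] at this
    have h3 : Tendsto (fun κ : ℝ => κ) (𝓝[>] 0) (𝓝 0) := tendsto_id.mono_left nhdsWithin_le_nhds
    have h4 := (h2.add h3).const_mul CT
    rw [add_zero, mul_zero] at h4
    exact h4
  obtain ⟨C1, ρ1, hρ1, H⟩ := hQ M L ε A (min (1 / 2) (ε / 16)) _ hε hR0 hvan
  refine ⟨max C1 (4 / ε), min ρ1 (min (1 / 2) (ε / 16)), lt_min hρ1 hR0, fun x b hb => ?_⟩
  obtain ⟨m1, m2, m3, m4⟩ := hM p hp b hb
  -- the functions of one variable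
  set v : Fin P → ℂ → ℂ := fun i w => x.u i ((w + b) / (1 + starRingEnd ℂ b * w)) with hvdef
  have v1 : ∀ i, DifferentiableOn ℂ (v i) (Metric.ball 0 1) := by
    intro i
    refine (x.u1 i).comp ?_ fun w hw => (mob_mem hb hw).2
    intro w hw
    have h1 := (mob_mem hb hw).1
    refine DifferentiableAt.differentiableWithinAt ?_
    fun_prop (disch := exact h1)
  have v2 : ∀ i, ∀ w ∈ Metric.ball (0 : ℂ) 1, ‖v i w‖ ≤ 1 := fun i w hw =>
    x.u2 i _ (mob_mem hb hw).2
  have v3 : ∀ i, ∀ z ∈ B d, x.u i (ip (mvE p b z) p) = v i (ip z p) := by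
    intro i z hz
    rw [m3 z hz]
  have v4 : ∀ i, ∀ z ∈ B d, nm (z - q) < min (1 / 2) (ε / 16) →
      ‖v i (ip z p) - v i 0‖ ≤ 3 * (ε / 16) := by
    intro i z hz hzq
    refine (schw (v1 i) (v2 i) (ip_mem hp hz)).trans ?_
    refine mul_le_mul_of_nonneg_left ?_ (by norm_num)
    exact (ip_near hp hqp z).trans (hzq.le.trans (min_le_right _ _))
  have hC0 : (0 : ℝ) ≤ max C1 (4 / ε) := le_max_of_le_right (by positivity)
  by_cases hc : ∀ i, ‖v i 0‖ < ε / 2
  · have hsm : ∀ i, ∀ z ∈ B d, nm (z - q) < min (1 / 2) (ε / 16) →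
        ‖x.u i (ip (mvE p b z) p)‖ < ε := by
      intro i z hz hzq
      rw [v3 i z hz]
      have h1 := v4 i z hz hzq
      have h2 := hc i
      have h3 : ‖v i (ip z p)‖ ≤ ‖v i (ip z p) - v i 0‖ + ‖v i 0‖ := by
        simpa using norm_add_le (v i (ip z p) - v i 0) (v i 0)
      linarith
    obtain ⟨w1, w2⟩ := hT p b τ x.a hp hb x.aw x.tl
    obtain ⟨g, h, hg, hh, hgh⟩ := H q hq (fun j z => x.f j (mvE p b z))
      (fun l z => x.G l (mvE p b z)) (fun l z => x.κ l (mvE p b z)) (fun z => x.a (mvE p b z))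
      { f1 := fun j => (x.f1 j).comp m2 m1
        f2 := fun j z hz => x.f2 j _ (m1 hz)
        g1 := fun l => (x.g1 l).comp m2 m1
        g2 := fun l z hz => x.g2 l _ (m1 hz)
        k1 := fun l => (x.k1 l).comp (m2.mono fun z hz => hz.1)
          fun z hz => ⟨m1 hz.1, hz.2.2, fun i => hsm i z hz.1 hz.2.1⟩
        k2 := fun l z hz hzq hf => (x.k2 _ (m1 hz) hf fun i => hsm i z hz hzq).1 l
        k3 := fun z hz hzq hf => (x.k2 _ (m1 hz) hf fun i => hsm i z hz hzq).2 } w1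
      (fun κ hκ z hz hzq => w2 κ hκ z hz
        ((ip_near hp hqp z).trans (hzq.le.trans (min_le_left _ _))))
      (fun j z hz ξ => by
        have h1 : DifferentiableAt ℂ (mvE p b) z := (m2 z hz).differentiableAt (B_open.mem_nhds hz)
        have h2 : DifferentiableAt ℂ (x.f j) (mvE p b z) :=
          (x.f1 j _ (m1 hz)).differentiableAt (B_open.mem_nhds (m1 hz))
        have h3 : fderiv ℂ (fun z => x.f j (mvE p b z)) z =
            (fderiv ℂ (x.f j) (mvE p b z)).comp (fderiv ℂ (mvE p b) z) :=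
          fderiv_comp z h2 h1
        rw [h3, ContinuousLinearMap.comp_apply, ← m4 z hz ξ]
        exact x.df j _ (m1 hz) _)
    have hmono : {z | z ∈ B d ∧ nm (z - q) < min ρ1 (min (1 / 2) (ε / 16))} ⊆
        {z | z ∈ B d ∧ nm (z - q) < ρ1} := fun z hz => ⟨hz.1, hz.2.trans_le (min_le_left _ _)⟩
    refine ⟨Fin.append (Fin.append g (fun _ _ => 0)) h,
      ap3 (Q := fun g : E d → ℂ => DifferentiableOn ℂ g
          {z | z ∈ B d ∧ nm (z - q) < min ρ1 (min (1 / 2) (ε / 16))})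
        (fun j => (hg j).mono hmono) (fun i => differentiableOn_const _)
        (fun l => (hh l).mono hmono), fun z hz hzq => ?_⟩
    obtain ⟨k1, k2, k3⟩ := hgh z hz (hzq.trans_le (min_le_left _ _))
    refine ⟨ap3 (Q := fun g : E d → ℂ => ‖g z‖ ≤ max C1 (4 / ε)) (fun j => (k1 j).trans (le_max_left _ _))
      (fun i => by rw [norm_zero]; exact hC0) (fun l => (k2 l).trans (le_max_left _ _)), ?_⟩
    simp only [Dat.F, Fin.sum_univ_add, Fin.append_left, Fin.append_right, mul_zero,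
      Finset.sum_const_zero, add_zero]
    exact k3
  · push Not at hc
    obtain ⟨i0, hi0⟩ := hc
    have hbg : ∀ z ∈ B d, nm (z - q) < min (1 / 2) (ε / 16) →
        ε / 4 ≤ ‖x.u i0 (ip (mvE p b z) p)‖ := by
      intro z hz hzq
      rw [v3 i0 z hz]
      have h1 := v4 i0 z hz hzq
      have h3 : ‖v i0 0‖ ≤ ‖v i0 (ip z p)‖ + ‖v i0 (ip z p) - v i0 0‖ := by
        have := norm_sub_le (v i0 (ip z p)) (v i0 (ip z p) - v i0 0)
        simpa using this
      linarith
    have hne : ∀ z ∈ B d, nm (z - q) < min (1 / 2) (ε / 16) →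
        x.u i0 (ip (mvE p b z) p) ≠ 0 := by
      intro z hz hzq h
      have h1 := hbg z hz hzq
      rw [h, norm_zero] at h1
      linarith
    have hdiff : DifferentiableOn ℂ (fun z => x.u i0 (ip (mvE p b z) p)) (B d) := by
      refine (x.u1 i0).comp ?_ fun z hz => ip_mem hp (m1 hz)
      exact (ip_diff p).differentiableOn.comp m2 m1
    refine ⟨Fin.append (Fin.append (fun _ _ => 0)
      (fun i z => if i = i0 then (x.u i0 (ip (mvE p b z) p))⁻¹ else 0)) (fun _ _ => 0),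
      ap3 (Q := fun g : E d → ℂ => DifferentiableOn ℂ g
          {z | z ∈ B d ∧ nm (z - q) < min ρ1 (min (1 / 2) (ε / 16))})
        (fun j => differentiableOn_const _) (fun i => ?_) (fun l => differentiableOn_const _),
      fun z hz hzq => ?_⟩
    · by_cases hi : i = i0
      · simp only [hi, if_true]
        exact (hdiff.mono fun z hz => hz.1).inv
          fun z hz => hne z hz.1 (hz.2.trans_le (min_le_right _ _))
      · simp only [hi, if_false]
        exact differentiableOn_const _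
    · have hzq' := hzq.trans_le (min_le_right _ _)
      refine ⟨ap3 (Q := fun g : E d → ℂ => ‖g z‖ ≤ max C1 (4 / ε)) (fun j => by rw [norm_zero]; exact hC0)
        (fun i => ?_) (fun l => by rw [norm_zero]; exact hC0), ?_⟩
      · by_cases hi : i = i0
        · simp only [hi, if_true]
          refine le_trans ?_ (le_max_right _ _)
          rw [norm_inv, show 4 / ε = (ε / 4)⁻¹ by rw [inv_div]]
          exact inv_anti₀ (by positivity) (hbg z hz hzq')
        · simp only [hi, if_false]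
          rw [norm_zero]
          exact hC0
      · simp only [Dat.F, Fin.sum_univ_add, Fin.append_left, Fin.append_right, mul_zero,
          Finset.sum_const_zero, add_zero, zero_add, mul_ite, Finset.sum_ite_eq',
          Finset.mem_univ, if_true]
        exact mul_inv_cancel₀ (hne z hz hzq')

theorem GU_of (d : ℕ) (hM : MVF d) (hT : TRP d) (hQ : LQ d) (hW : WHT d) : GU d := by
  intro p hp M P L ε A τ hε hτ
  have hA1 : 0 < |A| + 1 := by positivity
  obtain ⟨C, hC⟩ := hW p hp (Dat p M P L ε A τ) (M + P + L) (fun x => x.F)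
    (min ε (1 / (|A| + 1))) (lt_min hε (by positivity))
    (fun x => ap3 (Q := fun g : E d → ℂ => DifferentiableOn ℂ g (B d)) x.f1 (fun i => (x.u1 i).comp (ip_diff p).differentiableOn
      fun z hz => ip_mem hp hz) x.g1)
    (fun x => ap3 (Q := fun g : E d → ℂ => ∀ z ∈ B d, ‖g z‖ ≤ 1) x.f2
      (fun i z hz => x.u2 i _ (ip_mem hp hz)) x.g2)
    (by
      intro x z hz
      simp only [Dat.F, Fin.sum_univ_add, Fin.append_left, Fin.append_right]
      have hs1 : 0 ≤ ∑ i, ‖x.f i z‖ := Finset.sum_nonneg fun i _ => norm_nonneg _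
      have hs2 : 0 ≤ ∑ i, ‖x.G i z‖ := Finset.sum_nonneg fun i _ => norm_nonneg _
      have hs3 : 0 ≤ ∑ i, ‖x.u i (ip z p)‖ := Finset.sum_nonneg fun i _ => norm_nonneg _
      by_cases hsm : ∀ j, ‖x.f j z‖ < ε
      · by_cases hsu : ∀ i, ‖x.u i (ip z p)‖ < ε
        · obtain ⟨h0, h1⟩ := x.k2 z hz hsm hsu
          have h2 : (1 : ℝ) ≤ ∑ l, ‖x.G l z‖ * |A| := by
            calc (1 : ℝ) = ‖∑ l, x.G l z * x.κ l z‖ := by rw [h1, norm_one]
              _ ≤ ∑ l, ‖x.G l z * x.κ l z‖ := norm_sum_le _ _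
              _ ≤ ∑ l, ‖x.G l z‖ * |A| := Finset.sum_le_sum fun l _ => by
                rw [norm_mul]
                exact mul_le_mul_of_nonneg_left ((h0 l).trans (le_abs_self A))
                  (norm_nonneg _)
          rw [← Finset.sum_mul] at h2
          have h3 : 1 / (|A| + 1) ≤ ∑ l, ‖x.G l z‖ := by
            rw [div_le_iff₀ hA1]
            nlinarith
          exact (min_le_right _ _).trans (h3.trans (by linarith))
        · push Not at hsu
          obtain ⟨j, hj⟩ := hsu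
          have h1 := Finset.single_le_sum (f := fun j => ‖x.u j (ip z p)‖)
            (fun i _ => norm_nonneg _) (Finset.mem_univ j)
          exact (min_le_left _ _).trans (hj.trans (h1.trans (by linarith)))
      · push Not at hsm
        obtain ⟨j, hj⟩ := hsm
        have h1 := Finset.single_le_sum (f := fun j => ‖x.f j z‖) (fun i _ => norm_nonneg _)
          (Finset.mem_univ j)
        exact (min_le_left _ _).trans (hj.trans (h1.trans (by linarith))))
    (fun q hq hqp => localS hM hT hQ hp M P L A hε hτ hq hqp)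
  refine ⟨C, fun f u G κ a f1 f2 u1 u2 g1 g2 k1 k2 aw tl df => ?_⟩
  obtain ⟨g, hg, hgz⟩ := hC ⟨f, u, G, κ, a, f1, f2, u1, u2, g1, g2, k1, k2, aw, tl, df⟩
  refine ⟨fun j => g (Fin.castAdd L (Fin.castAdd P j)), fun i => g (Fin.castAdd L (Fin.natAdd M i)),
    fun l => g (Fin.natAdd (M + P) l), fun j => hg _, fun i => hg _, fun l => hg _,
    fun z hz => ⟨fun j => (hgz z hz).1 _, fun i => (hgz z hz).1 _, fun l => (hgz z hz).1 _, ?_⟩⟩
  have h1 := (hgz z hz).2
  simp only [Dat.F, Fin.sum_univ_add, Fin.append_left, Fin.append_right] at h1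
  exact h1

end Pool.Agent.N700.RN
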